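import Mathlib
import Pool.Agent.H985.Sep
import Pool.Agent.Results.MP_eba1ef_gt.RogersBound

set_option autoImplicit false

/-!
# MP_5e7226_co: Rogers' bound for the separation of the faces, for all convex bodies

For every `d ≥ 3`, every convex body `K` in `𝔼^d` and every interior point `o` of `K` (no symmetry
is assumed) there are at most `2^d (d log d + d log log d + (7/2) d)` hyperplanes such that every
face of `K` is strictly separated from `o` by one of them. In the known bound of Erdős and Rogers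
there is `vol(K - K) / vol(K)`, up to `(2d choose d)`, instead of `2^d`; the starting result
`AllConvexBodies` has `2^d (6 + o(1)) d log d`. In the dimensions `5, …, 10` the numbers `642`,
`1628`, `3968`, `9398`, `21793`, `49709` of hyperplanes suffice (known to the writer:
`933`, `6137`, `41377`, `284096` for `d = 5, 6, 7, 8`).

The polar body of `K` with respect to `o` is covered by so many translates of its interior
(`MP_eba1ef_gt.RogersBound`), and every translate gives a hyperplane (`H985.Sep`). The proof for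
coverings: the part `S` of a body `P` which is symmetric about a suitable point has at least the
fraction `2^(-d)` of the volume of `P`, so there is a net `A` of `P` with respect to `δ S` of at most
`(2 + 4/δ)^d` points; among the translates of `(1 - δ) P` there is, for each subset of `A`, one
which contains the share `((1 - δ)/(2 - δ))^d` of its points (Cauchy-Schwarz); greedy covering,
stopped when `((2 - δ)/(1 - δ))^d` points are left.
-/

namespace Pool.Agent.Results.MP_5e7226_co.RogersBound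

open scoped InnerProductSpace

/-- **Main theorem.** Rogers' bound for the number of the hyperplanes which separate the faces of
`K` from `o`, for all convex bodies `K`, and explicit bounds in the dimensions five to ten. -/
theorem result :
    (∀ d : ℕ, 3 ≤ d → ∀ K : Set (EuclideanSpace ℝ (Fin d)), IsCompact K →
      ∀ o : EuclideanSpace ℝ (Fin d), o ∈ interior K →
      ∃ H : Finset (EuclideanSpace ℝ (Fin d) × ℝ),
        (H.card : ℝ) ≤ 2 ^ d * (d * Real.log d + d * Real.log (Real.log d) + 7 / 2 * d) ∧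
        (∀ h ∈ H, h.1 ≠ 0) ∧
        ∀ u x₀ : EuclideanSpace ℝ (Fin d), u ≠ 0 → x₀ ∈ K → (∀ y ∈ K, ⟪u, y⟫_ℝ ≤ ⟪u, x₀⟫_ℝ) →
          ∃ h ∈ H, ⟪h.1, o⟫_ℝ < h.2 ∧ ∀ x ∈ K, ⟪u, x⟫_ℝ = ⟪u, x₀⟫_ℝ → h.2 < ⟪h.1, x⟫_ℝ) ∧
    (∀ c ∈ [(5, 642), (6, 1628), (7, 3968), (8, 9398), (9, 21793), (10, 49709)],
      ∀ K : Set (EuclideanSpace ℝ (Fin c.1)), IsCompact K →
      ∀ o : EuclideanSpace ℝ (Fin c.1), o ∈ interior K →
      ∃ H : Finset (EuclideanSpace ℝ (Fin c.1) × ℝ), H.card ≤ c.2 ∧ (∀ h ∈ H, h.1 ≠ 0) ∧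
        ∀ u x₀ : EuclideanSpace ℝ (Fin c.1), u ≠ 0 → x₀ ∈ K →
          (∀ y ∈ K, ⟪u, y⟫_ℝ ≤ ⟪u, x₀⟫_ℝ) →
          ∃ h ∈ H, ⟪h.1, o⟫_ℝ < h.2 ∧ ∀ x ∈ K, ⟪u, x⟫_ℝ = ⟪u, x₀⟫_ℝ → h.2 < ⟪h.1, x⟫_ℝ) := by
  obtain ⟨h1, h2⟩ := Pool.Agent.Results.MP_eba1ef_gt.RogersBound.result
  constructor
  · intro d hd K hKc o ho
    obtain ⟨T, hcov, hT⟩ := h1 d hd (H985.Sep.polar K o) (H985.Sep.convex_polar K o)
      (H985.Sep.isCompact_polar ho) (H985.Sep.interior_polar_nonempty hKc ho)
    obtain ⟨H, h3, h4, h5⟩ := H985.Sep.separate ho T hcov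
    exact ⟨H, le_trans (by exact_mod_cast h3) hT, h4, h5⟩
  · intro c hc K hKc o ho
    obtain ⟨T, hcov, hT⟩ := h2 c hc (H985.Sep.polar K o) (H985.Sep.convex_polar K o)
      (H985.Sep.isCompact_polar ho) (H985.Sep.interior_polar_nonempty hKc ho)
    obtain ⟨H, h3, h4, h5⟩ := H985.Sep.separate ho T hcov
    exact ⟨H, h3.trans hT, h4, h5⟩

end Pool.Agent.Results.MP_5e7226_co.RogersBound
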